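import Mathlib

namespace Pool.Agent.Results.MP_cb51c9_co.Greedy

open Finset hiding Iic Iio
open Set hiding range

/-- no nontrivial solution of `5w + 2x = 5y + 2z` -/
def Free (S : Set ℕ) : Prop :=
  ∀ w ∈ S, ∀ x ∈ S, ∀ y ∈ S, ∀ z ∈ S, 5 * w + 2 * x = 5 * y + 2 * z → w = y ∧ x = z

/-- `g` is the greedy sequence -/
def IsGreedy (g : ℕ → ℕ) : Prop :=
  g 0 = 0 ∧ ∀ i, IsLeast {x | g i < x ∧ Free (insert x (g '' Iic i))} (g (i + 1))

/-- `5 x + y` with `x` a sum of distinct terms of `a` and `y ≤ 4` -/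
def R (a : ℕ → ℕ) : Set ℕ := {n | ∃ (s : Finset ℕ) (y : ℕ), y ≤ 4 ∧ n = 5 * ∑ i ∈ s, a i + y}

section
variable {a : ℕ → ℕ} (h0 : a 0 = 0) (ha : ∀ i, a (i + 1) = (6 + 7 * ∑ j ∈ range (i + 1), a j) / 2)

/-- subset sums of `a 0, ..., a (i-1)` -/
def A (a : ℕ → ℕ) : ℕ → ℕ → Prop
  | 0, x => x = 0
  | i + 1, x => A a i x ∨ ∃ y, A a i y ∧ x = y + a i

theorem A_iff (i x : ℕ) : A a i x ↔ ∃ s ⊆ range i, x = ∑ j ∈ s, a j := by
  induction i generalizing x with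
  | zero => simp [A]
  | succ i ih =>
    simp only [A, ih, range_add_one]
    constructor
    · rintro (⟨s, hs, rfl⟩ | ⟨_, ⟨s, hs, rfl⟩, rfl⟩)
      · exact ⟨s, hs.trans (subset_insert _ _), rfl⟩
      · exact ⟨insert i s, insert_subset_insert _ hs, by
          rw [sum_insert fun h => by simpa using hs h, add_comm]⟩
    · rintro ⟨s, hs, rfl⟩
      by_cases h : i ∈ s
      · exact .inr ⟨_, ⟨s.erase i, subset_insert_iff.1 hs, rfl⟩, (sum_erase_add _ _ h).symm⟩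
      · exact .inl ⟨s, (Finset.subset_insert_iff_of_notMem h).1 hs, rfl⟩

theorem mem_R (n : ℕ) : n ∈ R a ↔ ∃ i, A a i (n / 5) := by
  simp only [A_iff]
  constructor
  · rintro ⟨s, y, hy, rfl⟩
    obtain ⟨i, hi⟩ := s.exists_nat_subset_range
    exact ⟨i, s, hi, by omega⟩
  · rintro ⟨i, s, -, h⟩
    exact ⟨s, n % 5, by omega, by omega⟩

theorem le {i x : ℕ} (h : A a i x) : x ≤ ∑ j ∈ range i, a j := by
  obtain ⟨s, hs, rfl⟩ := (A_iff i x).1 h
  exact sum_le_sum_of_subset hs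

theorem mono {i j x : ℕ} (l : i ≤ j) (h : A a i x) : A a j x := by
  obtain ⟨s, hs, rfl⟩ := (A_iff i x).1 h
  exact (A_iff _ _).2 ⟨s, hs.trans (range_subset_range.2 l), rfl⟩

include h0 ha

theorem free : ∀ i w x y z, A a (i + 1) w → A a (i + 1) x → A a (i + 1) y → A a (i + 1) z →
    5 * w + 2 * x ≤ 5 * y + 2 * z + 4 → 5 * y + 2 * z ≤ 5 * w + 2 * x + 4 → x = z
  | 0, w, x, y, z, _, h2, _, h4, _, _ => by simp_all [A]
  | i + 1, w, x, y, z, h1, h2, h3, h4, e, e' => by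
    have := ha i
    rcases h1 with h1 | ⟨w, h1, rfl⟩ <;> rcases h2 with h2 | ⟨x, h2, rfl⟩ <;>
      rcases h3 with h3 | ⟨y, h3, rfl⟩ <;> rcases h4 with h4 | ⟨z, h4, rfl⟩ <;>
      have := free i w x y z h1 h2 h3 h4 <;> have := le h1 <;> have := le h2 <;> have := le h3 <;>
      have := le h4 <;> omega

theorem cover : ∀ i (q : ℤ), -(5 * (∑ j ∈ range (i + 1), a j : ℕ) + 4) ≤ q →
    q ≤ 7 * (∑ j ∈ range (i + 1), a j : ℕ) + 4 → ∃ x w y, A a (i + 1) x ∧ A a (i + 1) w ∧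
      A a (i + 1) y ∧ q + 5 * y ≤ 2 * x + 5 * w + 4 ∧ 2 * x + 5 * w ≤ q + 5 * y + 4
  | 0, q, h1, h2 => ⟨0, 0, 0, .inl rfl, .inl rfl, .inl rfl, by simp_all, by simp_all; omega⟩
  | i + 1, q, h1, h2 => by
    have := ha i
    rw [sum_range_succ] at h1 h2
    have c := cover i
    generalize ∑ j ∈ range (i + 1), a j = σ at *
    by_cases c1 : q + 5 * a (i + 1) ≤ 7 * σ + 4
    · obtain ⟨x, w, y, a1, a2, a3, a4⟩ := c (q + 5 * a (i + 1)) (by omega) c1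
      exact ⟨x, w, _, .inl a1, .inl a2, .inr ⟨y, a3, rfl⟩, by omega⟩
    by_cases c2 : q + 3 * a (i + 1) ≤ 7 * σ + 4
    · obtain ⟨x, w, y, a1, a2, a3, a4⟩ := c (q + 3 * a (i + 1)) (by omega) c2
      exact ⟨_, w, _, .inr ⟨x, a1, rfl⟩, .inl a2, .inr ⟨y, a3, rfl⟩, by omega⟩
    by_cases c3 : q ≤ 7 * σ + 4
    · obtain ⟨x, w, y, a1, a2, a3, a4⟩ := c q (by omega) c3
      exact ⟨x, w, y, .inl a1, .inl a2, .inl a3, a4⟩
    by_cases c4 : q - 2 * a (i + 1) ≤ 7 * σ + 4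
    · obtain ⟨x, w, y, a1, a2, a3, a4⟩ := c (q - 2 * a (i + 1)) (by omega) c4
      exact ⟨_, w, y, .inr ⟨x, a1, rfl⟩, .inl a2, .inl a3, by omega⟩
    by_cases c5 : q - 5 * a (i + 1) ≤ 7 * σ + 4
    · obtain ⟨x, w, y, a1, a2, a3, a4⟩ := c (q - 5 * a (i + 1)) (by omega) c5
      exact ⟨x, _, y, .inl a1, .inr ⟨w, a2, rfl⟩, .inl a3, by omega⟩
    obtain ⟨x, w, y, a1, a2, a3, a4⟩ := c (q - 7 * a (i + 1)) (by omega) (by omega)
    exact ⟨_, _, y, .inr ⟨x, a1, rfl⟩, .inr ⟨w, a2, rfl⟩, .inl a3, by omega⟩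

theorem bad : ∀ i q, q < a (i + 1) → ¬A a (i + 1) q → ∃ x w y, A a (i + 1) x ∧ A a (i + 1) w ∧
    A a (i + 1) y ∧ x < q ∧ w < q ∧ y < q ∧ 2 * q + 5 * y ≤ 2 * x + 5 * w + 4 ∧
      2 * x + 5 * w ≤ 2 * q + 5 * y + 4 := by
  intro i
  induction i using Nat.strong_induction_on with
  | _ i ih =>
  intro q h1 h2
  have := ha i
  by_cases c : ∑ j ∈ range (i + 1), a j < q
  · obtain ⟨x, w, y, a1, a2, a3, a4⟩ := cover h0 ha i (2 * q) (by omega) (by omega)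
    have := le a1
    have := le a2
    have := le a3
    exact ⟨x, w, y, a1, a2, a3, by omega⟩
  rcases i with _ | i
  · exact absurd (.inl (show q = 0 by simp_all)) h2
  have := ha i
  rw [sum_range_succ] at c
  by_cases d : q < a (i + 1)
  · obtain ⟨x, w, y, a1, a2, a3, a4⟩ := ih i i.lt_succ_self q d fun h => h2 (.inl h)
    exact ⟨x, w, y, .inl a1, .inl a2, .inl a3, a4⟩
  · obtain ⟨x, w, y, a1, a2, a3, a4⟩ := ih i i.lt_succ_self (q - a (i + 1)) (by omega)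
      fun h => h2 (.inr ⟨_, h, by omega⟩)
    exact ⟨_, w, y, .inr ⟨x, a1, rfl⟩, .inl a2, .inl a3, by omega⟩

omit h0 in
theorem big (i : ℕ) : i < a (i + 1) := by
  induction i with
  | zero => have := ha 0; omega
  | succ i ih => have := ha (i + 1); rw [sum_range_succ] at this; omega

theorem freeR : Free (R a) := fun w hw x hx y hy z hz e => by
  obtain ⟨i, hi⟩ := (mem_R _).1 hw
  obtain ⟨j, hj⟩ := (mem_R _).1 hx
  obtain ⟨k, hk⟩ := (mem_R _).1 hy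
  obtain ⟨l, hl⟩ := (mem_R _).1 hz
  have := free h0 ha (i + j + k + l) _ _ _ _ (mono (by omega) hi) (mono (by omega) hj)
    (mono (by omega) hk) (mono (by omega) hl)
  omega

theorem notfree (n : ℕ) (h : n ∉ R a) : ¬Free (insert n (R a ∩ Iio n)) := fun k => by
  obtain ⟨x, w, y, a1, a2, a3, a4⟩ := bad h0 ha (n / 5) (n / 5) (big ha _)
    fun q => h ((mem_R _).2 ⟨_, q⟩)
  have m : ∀ x r, A a (n / 5 + 1) x → x < n / 5 → r ≤ 4 → 5 * x + r ∈ insert n (R a ∩ Iio n) :=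
    fun x r h1 h2 h3 => .inr ⟨(mem_R _).2 ⟨_, by rwa [show (5 * x + r) / 5 = x by omega]⟩,
      show 5 * x + r < n by omega⟩
  have := k _ (m w (2 * (n / 5) + 5 * y - (2 * x + 5 * w)) a2 (by omega) (by omega))
    _ (m x (n % 5) a1 (by omega) (by omega))
    _ (m y (2 * x + 5 * w - (2 * (n / 5) + 5 * y)) a3 (by omega) (by omega)) n (.inl rfl) (by omega)
  omega

theorem inf : (R a).Infinite := infinite_of_not_bddAbove fun ⟨b, hb⟩ => by
  have := hb (show 5 * a (b + 1) ∈ R a from ⟨{b + 1}, 0, by omega, by simp⟩)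
  have := big ha b
  omega

theorem nth : IsGreedy (Nat.nth (· ∈ R a)) := by
  have i := inf h0 ha
  have sm := Nat.nth_strictMono i
  refine ⟨Nat.nth_zero_of_zero ⟨∅, 0, by omega, by simp⟩, fun k => ⟨⟨sm k.lt_succ_self,
    fun w hw x hx y hy z hz => ?_⟩, fun x ⟨h1, h2⟩ => ?_⟩⟩
  · have : insert (Nat.nth (· ∈ R a) (k + 1)) (Nat.nth (· ∈ R a) '' Iic k) ⊆ R a := by
      rintro _ (rfl | ⟨j, -, rfl⟩) <;> exact Nat.nth_mem_of_infinite i _
    exact freeR h0 ha w (this hw) x (this hx) y (this hy) z (this hz)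
  · by_contra c
    have e : ∀ y ∈ R a, y ≤ x → y ∈ Nat.nth (· ∈ R a) '' Iic k := fun y hy l => by
      obtain ⟨j, rfl⟩ := (Nat.range_nth_of_infinite i).ge hy
      exact ⟨j, Nat.lt_succ_iff.1 (sm.lt_iff_lt.1 (l.trans_lt (not_le.1 c))), rfl⟩
    have s : insert x (R a ∩ Iio x) ⊆ insert x (Nat.nth (· ∈ R a) '' Iic k) :=
      insert_subset_insert fun y hy => e y hy.1 hy.2.le
    refine notfree h0 ha x (fun h => ?_) fun w hw x hx y hy z hz => h2 w (s hw) x (s hx) y (s hy) z (s hz)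
    obtain ⟨j, hj, rfl⟩ := e x h le_rfl
    exact absurd (sm.lt_iff_lt.1 h1) (not_lt.2 hj)

end

def sq (c : ℕ) : ℕ → ℕ × ℕ
  | 0 => (0, 0)
  | i + 1 => ((c + 7 * (sq c i).2) / 2, (sq c i).2 + (c + 7 * (sq c i).2) / 2)

theorem result : (∃ g, IsGreedy g) ∧ ∀ g, IsGreedy g →
    (∀ a : ℕ → ℕ, a 0 = 0 → (∀ i, a (i + 1) = ⌈((5 + 7 * ∑ j ∈ range (i + 1), a j : ℕ) : ℚ) / 2⌉₊) →
      Set.range g = R a) ∧
    ∀ a : ℕ → ℕ, a 0 = 0 → (∀ i, a (i + 1) = ⌊((5 + 7 * ∑ j ∈ range (i + 1), a j : ℕ) : ℚ) / 2⌋₊) →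
      Set.range g ≠ R a := by
  have s : ∀ i, ∑ j ∈ range (i + 1), (sq 6 j).1 = (sq 6 i).2 := fun i => by
    induction i with
    | zero => rfl
    | succ i ih => rw [sum_range_succ, ih]; rfl
  have hb : ∀ i, (sq 6 (i + 1)).1 = (6 + 7 * ∑ j ∈ range (i + 1), (sq 6 j).1) / 2 := fun i => by
    rw [s]; rfl
  have u : ∀ g (a : ℕ → ℕ), IsGreedy g → a 0 = 0 →
      (∀ i, a (i + 1) = (6 + 7 * ∑ j ∈ range (i + 1), a j) / 2) → Set.range g = R a := by
    intro g a hg h0 ha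
    have hn := nth h0 ha
    refine .trans (congrArg _ (funext fun i => ?_)) (Nat.range_nth_of_infinite (inf h0 ha))
    induction i using Nat.strong_induction_on with
    | _ i ih =>
    rcases i with _ | i
    · exact hg.1.trans hn.1.symm
    refine (hg.2 i).unique ?_
    rw [ih i i.lt_succ_self, image_congr (s := Iic i) fun j hj => ih j (Nat.lt_succ_iff.2 hj)]
    exact hn.2 i
  refine ⟨⟨_, nth (a := fun i => (sq 6 i).1) rfl hb⟩, fun g hg => ⟨fun a h0 ha => u g a hg h0 fun i => ?_,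
    fun a h0 ha e => ?_⟩⟩
  · rw [ha]
    generalize ∑ j ∈ range (i + 1), a j = σ
    rcases Nat.even_or_odd' σ with ⟨k, rfl | rfl⟩
    · rw [show (6 + 7 * (2 * k)) / 2 = 7 * k + 3 by omega, Nat.ceil_eq_iff (by omega)]
      simp only [show 7 * k + 3 - 1 = 7 * k + 2 by omega]
      push_cast
      constructor <;> linarith
    · rw [show (6 + 7 * (2 * k + 1)) / 2 = 7 * k + 6 by omega, Nat.ceil_eq_iff (by omega)]
      simp only [show 7 * k + 6 - 1 = 7 * k + 5 by omega]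
      push_cast
      constructor <;> linarith
  · have h1 : a 1 = 2 := by
      rw [ha, Nat.floor_eq_iff (by positivity)]
      norm_num [h0]
    have f := freeR (a := fun i => (sq 6 i).1) rfl hb
    rw [← u g _ hg rfl hb, e] at f
    have := f 4 ⟨∅, 4, by simp⟩ 0 ⟨∅, 0, by simp⟩ 0 ⟨∅, 0, by simp⟩ 10 ⟨{1}, 0, by simp [h1]⟩ rfl
    omega

end Pool.Agent.Results.MP_cb51c9_co.Greedy
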